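import Mathlib
import Pool.Agent.WordPSL.Main

/-!
Word maps in two variables on `PSL₂(ℂ)` are surjective, in terms of matrices.
-/

set_option autoImplicit false

namespace Pool.Agent.Results.MP_5d7f3f_al.WordMapSL

open Matrix

/-- the element of the group `G` obtained by substituting `x` and `y` for the two letters of the
word `w` -/
def wordValue {G : Type*} [Group G] (w : FreeGroup (Fin 2)) (x y : G) : G :=
  FreeGroup.lift (fun i : Fin 2 => if i = 0 then x else y) w

theorem result (w : FreeGroup (Fin 2)) (hw : w ≠ 1) (A : Matrix.SpecialLinearGroup (Fin 2) ℂ) :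
    ∃ x y : Matrix.SpecialLinearGroup (Fin 2) ℂ, wordValue w x y = A ∨ wordValue w x y = -A := by
  obtain ⟨g, hg⟩ := Pool.Agent.WordPSL.surj w hw
    (QuotientGroup.mk A : Matrix.SpecialLinearGroup (Fin 2) ℂ ⧸
      Subgroup.center (Matrix.SpecialLinearGroup (Fin 2) ℂ))
  obtain ⟨x, hx⟩ := QuotientGroup.mk_surjective (g 0)
  obtain ⟨y, hy⟩ := QuotientGroup.mk_surjective (g 1)
  refine ⟨x, y, ?_⟩
  have h1 : (QuotientGroup.mk' (Subgroup.center (Matrix.SpecialLinearGroup (Fin 2) ℂ)))
      (wordValue w x y) = FreeGroup.lift g w := by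
    unfold wordValue
    have h2 : ((QuotientGroup.mk' (Subgroup.center (Matrix.SpecialLinearGroup (Fin 2) ℂ))).comp
        (FreeGroup.lift (fun i : Fin 2 => if i = 0 then x else y))) = FreeGroup.lift g := by
      ext i
      fin_cases i
      · simpa using hx
      · simpa using hy
    exact DFunLike.congr_fun h2 w
  rw [hg] at h1
  have h3 : (wordValue w x y)⁻¹ * A ∈ Subgroup.center (Matrix.SpecialLinearGroup (Fin 2) ℂ) :=
    QuotientGroup.eq.mp h1
  rw [Matrix.SpecialLinearGroup.mem_center_iff] at h3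
  obtain ⟨r, hr, hs⟩ := h3
  have hr2 : r = 1 ∨ r = -1 := by
    simp only [Fintype.card_fin] at hr
    have h0 : (r - 1) * (r + 1) = 0 := by linear_combination hr
    rcases mul_eq_zero.mp h0 with h | h
    · exact Or.inl (by linear_combination h)
    · exact Or.inr (by linear_combination h)
  have h4 : ((wordValue w x y : Matrix.SpecialLinearGroup (Fin 2) ℂ) : Matrix (Fin 2) (Fin 2) ℂ) *
      Matrix.scalar (Fin 2) r = (A : Matrix (Fin 2) (Fin 2) ℂ) := by
    rw [hs, ← Matrix.SpecialLinearGroup.coe_mul, mul_inv_cancel_left]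
  rcases hr2 with rfl | rfl
  · left
    ext i j
    have := congrFun (congrFun h4 i) j
    simpa using this
  · right
    have h5 : (A : Matrix (Fin 2) (Fin 2) ℂ) =
        -((wordValue w x y : Matrix.SpecialLinearGroup (Fin 2) ℂ) : Matrix (Fin 2) (Fin 2) ℂ) := by
      rw [← h4]
      ext i j
      simp [Matrix.mul_diagonal]
    ext i j
    rw [Matrix.SpecialLinearGroup.coe_neg, h5]
    simp

end Pool.Agent.Results.MP_5d7f3f_al.WordMapSL
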